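import Pool.Agent.Helper15.DAF.Stmts

/-! # Row DMONO of the project DAF (MP_c8969c_ag) -/

open AlgebraicGeometry CategoryTheory TopologicalSpace Opposite

namespace Pool.Agent.Helper15.DAF

theorem st_DMONO (hDERLOC : ST_DERLOC) (hSMONO : ST_SMONO) (hSLOC : ST_SLOC) (hSGLUE : ST_SGLUE)
    (hSBASIC : ST_SBASIC) : ST_DMONO := by
  intro X _ s V W hWV
  have hDer : Der (O s V) ⊆ Der (O s W) := by
    intro d hd
    refine ⟨hd.1, fun b hb => ?_⟩
    refine hSGLUE X s W (d b) fun x hx => ?_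
    obtain ⟨f, Z, hZ, hxZ, hZW⟩ := hSBASIC X V W.U x (hWV hx) hx
    refine ⟨Z, hxZ, hZW, ?_⟩
    have h1 := hDERLOC (FF s) (O s V) (O s Z) (ev s V f) (hSLOC X s V Z f hZ) hd
    exact h1.2 b (hSMONO X s W Z hZW hb)
  refine ⟨hDer, ?_⟩
  unfold Dop
  refine Algebra.adjoin_mono ?_
  rintro P (⟨b, hb, rfl⟩ | hP)
  · exact Or.inl ⟨b, hSMONO X s V W hWV hb, rfl⟩
  · exact Or.inr (hDer hP)

end Pool.Agent.Helper15.DAF
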